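import Mathlib
import Pool.Agent.H15.GE1

set_option autoImplicit false

namespace Pool.Agent.Results.MP_0b7070_lc.Perfect

theorem result (V C : Type) (κ : V → V → C) (e : C) (sym : ∀ x y, κ x y = κ y x)
    (dg : ∀ x y, κ x y = e ↔ x = y)
    (hom : ∀ (A : Set V) (f : A → V), (∀ x y : A, κ (f x) (f y) = κ x y) →
      ∃ g : V ≃ V, (∀ x y, κ (g x) (g y) = κ x y) ∧ ∀ x : A, g x = f x)
    (pal : Cardinal.mk {c : C | ∃ x y, x ≠ y ∧ κ x y = c} ≤ Cardinal.aleph0) :
    Cardinal.mk V ≤ Cardinal.aleph0 ∨ 2 ^ Cardinal.aleph0 ≤ Cardinal.mk V := by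
  by_cases h : Countable V
  · exact Or.inl Cardinal.mk_le_aleph0
  right
  have hU : Uncountable V := not_countable_iff.1 h
  have hP : (insert e {c : C | ∃ x y, x ≠ y ∧ κ x y = c}).Countable :=
    (Cardinal.le_aleph0_iff_set_countable.1 pal).insert e
  have hm : ∀ x y, κ x y ∈ insert e {c : C | ∃ x y, x ≠ y ∧ κ x y = c} := by
    intro x y
    by_cases p : x = y
    · exact Or.inl ((dg x y).2 p)
    · exact Or.inr ⟨x, y, p, rfl⟩
  have := hP.to_subtype
  obtain ⟨F, hF⟩ := Pool.Agent.H15.GE.main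
    (κ := fun x y => (⟨κ x y, hm x y⟩ : ↥(insert e {c : C | ∃ x y, x ≠ y ∧ κ x y = c})))
    (e := ⟨e, Set.mem_insert _ _⟩) (fun x y => Subtype.ext (sym x y))
    (fun x y => by rw [Subtype.ext_iff]; exact dg x y) (by
      intro A f hf
      obtain ⟨g, g1, g2⟩ := hom A (fun x => f x) fun x y =>
        congrArg Subtype.val (hf x x.2 y y.2)
      exact ⟨g, fun x y => Subtype.ext (g1 x y), fun x hx => g2 ⟨x, hx⟩⟩)
  simpa using Cardinal.mk_le_of_injective hF

end Pool.Agent.Results.MP_0b7070_lc.Perfect
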